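import Mathlib

/-! Common adapted basis of two finite decreasing filtrations of a finite-dimensional space. -/

namespace Pool.Agent.Helper46.MN

open Submodule Module Finset

variable {K V : Type*} [Field K] [AddCommGroup V] [Module K V] [FiniteDimensional K V]

theorem exists_compl (W U : Submodule K V) (h : W ≤ U) :
    ∃ C : Submodule K V, C ≤ U ∧ W ⊔ C = U ∧ finrank K C + finrank K W = finrank K U := by
  obtain ⟨C, hC⟩ := Submodule.exists_isCompl W
  have h2 : W ⊔ C ⊓ U = U := by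
    rw [← sup_inf_assoc_of_le C h, hC.sup_eq_top, top_inf_eq]
  refine ⟨C ⊓ U, inf_le_right, h2, ?_⟩
  have h1 := Submodule.finrank_sup_add_finrank_inf_eq W (C ⊓ U)
  have h3 : W ⊓ (C ⊓ U) = ⊥ := by
    rw [← inf_assoc, hC.inf_eq_bot, bot_inf_eq]
  rw [h2, h3, finrank_bot] at h1
  omega

omit [FiniteDimensional K V] in
/-- finrank of the span of part of a basis -/
theorem finrank_span_image {ι : Type*} [Fintype ι] (b : Basis ι K V) (p : ι → Prop)
    [DecidablePred p] :
    finrank K (span K (b '' {i | p i})) = (Finset.univ.filter p).card := by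
  have h1 : b '' {i | p i} = Set.range (b ∘ (Subtype.val : {i // p i} → ι)) := by
    ext x
    constructor
    · rintro ⟨i, hi, rfl⟩
      exact ⟨⟨i, hi⟩, rfl⟩
    · rintro ⟨i, rfl⟩
      exact ⟨i.1, i.2, rfl⟩
  rw [h1, finrank_span_eq_card (b.linearIndependent.comp _ Subtype.val_injective),
    Fintype.card_subtype]

omit [FiniteDimensional K V] in
theorem sum_level {ι : Type*} [Fintype ι] (b : Basis ι K V) (M : ℕ) (L : ℕ → Submodule K V)
    (l : ι → ℕ) (hl : ∀ i, l i ≤ M) (hL : ∀ d, L d = span K (b '' {i | d ≤ l i})) :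
    ∑ i, l i = ∑ d ∈ range M, finrank K (L (d + 1)) := by
  classical
  have h1 : ∀ i, l i = ∑ d ∈ range M, if d + 1 ≤ l i then 1 else 0 := by
    intro i
    rw [Finset.sum_ite, Finset.sum_const_zero, add_zero, Finset.sum_const, smul_eq_mul, mul_one]
    have h2 : (range M).filter (fun d => d + 1 ≤ l i) = range (l i) := by
      ext d
      have := hl i
      simp only [Finset.mem_filter, Finset.mem_range]
      omega
    rw [h2, card_range]
  calc ∑ i, l i = ∑ i, ∑ d ∈ range M, (if d + 1 ≤ l i then 1 else 0) :=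
        Finset.sum_congr rfl (fun i _ => h1 i)
    _ = ∑ d ∈ range M, ∑ i, (if d + 1 ≤ l i then 1 else 0) := Finset.sum_comm
    _ = ∑ d ∈ range M, finrank K (L (d + 1)) := by
        refine Finset.sum_congr rfl (fun d _ => ?_)
        rw [hL (d + 1), finrank_span_image b (fun i => d + 1 ≤ l i), Finset.card_filter]

section main

variable (M : ℕ) (L R : ℕ → Submodule K V) (hL : Antitone L) (hR : Antitone R)
  (hL0 : L 0 = ⊤) (hR0 : R 0 = ⊤) (hLM : L (M + 1) = ⊥) (hRM : R (M + 1) = ⊥)

include hL hR in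
theorem step (a b : ℕ) : ∃ C : Submodule K V, C ≤ L a ⊓ R b ∧
    (L (a + 1) ⊓ R b) ⊔ (L a ⊓ R (b + 1)) ⊔ C = L a ⊓ R b ∧
    (finrank K C : ℤ) = ((finrank K (L a ⊓ R b : Submodule K V) : ℤ)
        - finrank K (L a ⊓ R (b + 1) : Submodule K V))
      - ((finrank K (L (a + 1) ⊓ R b : Submodule K V) : ℤ)
        - finrank K (L (a + 1) ⊓ R (b + 1) : Submodule K V)) := by
  have h1 : L (a + 1) ⊓ R b ≤ L a ⊓ R b := inf_le_inf_right _ (hL (Nat.le_succ a))
  have h2 : L a ⊓ R (b + 1) ≤ L a ⊓ R b := inf_le_inf_left _ (hR (Nat.le_succ b))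
  obtain ⟨C, hC1, hC2, hC3⟩ := exists_compl _ _ (sup_le h1 h2)
  refine ⟨C, hC1, hC2, ?_⟩
  have h3 := Submodule.finrank_sup_add_finrank_inf_eq (L (a + 1) ⊓ R b) (L a ⊓ R (b + 1))
  have h4 : (L (a + 1) ⊓ R b) ⊓ (L a ⊓ R (b + 1)) = L (a + 1) ⊓ R (b + 1) := by
    apply le_antisymm
    · exact le_inf (inf_le_left.trans inf_le_left) (inf_le_right.trans inf_le_right)
    · exact le_inf (le_inf inf_le_left (inf_le_right.trans (hR (Nat.le_succ b))))
        (le_inf (inf_le_left.trans (hL (Nat.le_succ a))) inf_le_right)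
  rw [h4] at h3
  omega

include hL hR hL0 hR0 hLM hRM in
theorem adapted : ∃ (n : ℕ) (b : Basis (Fin n) K V) (l r : Fin n → ℕ),
    (∀ i, l i ≤ M ∧ r i ≤ M ∧ b i ∈ L (l i) ∧ b i ∈ R (r i)) ∧
    (∀ d, L d = span K (b '' {i | d ≤ l i})) ∧
    (∀ d, R d = span K (b '' {i | d ≤ r i})) ∧
    (∀ d e, L d ⊓ R e = span K (b '' {i | d ≤ l i ∧ e ≤ r i})) ∧
    ∑ i, l i = ∑ d ∈ range M, finrank K (L (d + 1)) ∧
    ∑ i, r i = ∑ d ∈ range M, finrank K (R (d + 1)) := by
  classical
  choose C hC1 hC2 hC3 using fun a b => step L R hL hR a b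
  -- spanning
  let ι := Σ p : Fin (M + 1) × Fin (M + 1), Fin (finrank K (C p.1 p.2))
  let v : ι → V := fun i => (Module.finBasis K (C i.1.1 i.1.2) i.2 : V)
  have hv : ∀ i : ι, v i ∈ C i.1.1 i.1.2 := fun i => Submodule.coe_mem _
  have hCs : ∀ p : Fin (M + 1) × Fin (M + 1),
      C p.1 p.2 ≤ span K (v '' {i | i.1 = p}) := by
    intro p x hx
    have h1 : (⟨x, hx⟩ : C p.1 p.2) ∈ span K (Set.range (Module.finBasis K (C p.1 p.2))) := by
      rw [Basis.span_eq]; trivial
    have h2 := Submodule.mem_map_of_mem (f := (C p.1 p.2).subtype) h1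
    rw [Submodule.map_span] at h2
    refine span_mono ?_ h2
    rintro y ⟨z, ⟨j, rfl⟩, rfl⟩
    exact ⟨⟨p, j⟩, rfl, rfl⟩
  have hspan : ∀ (m a b : ℕ), 2 * (M + 1) ≤ a + b + m →
      L a ⊓ R b ≤ span K (v '' {i | a ≤ (i.1.1 : ℕ) ∧ b ≤ (i.1.2 : ℕ)}) := by
    intro m
    induction m with
    | zero =>
      intro a b h
      have : M + 1 ≤ a ∨ M + 1 ≤ b := by omega
      rcases this with h | h
      · have h1 : L a ≤ ⊥ := hLM ▸ hL h
        exact (inf_le_left.trans h1).trans bot_le
      · have h1 : R b ≤ ⊥ := hRM ▸ hR h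
        exact (inf_le_right.trans h1).trans bot_le
    | succ m ih =>
      intro a b h
      by_cases ha : M + 1 ≤ a
      · have h1 : L a ≤ ⊥ := hLM ▸ hL ha
        exact (inf_le_left.trans h1).trans bot_le
      by_cases hb : M + 1 ≤ b
      · have h1 : R b ≤ ⊥ := hRM ▸ hR hb
        exact (inf_le_right.trans h1).trans bot_le
      rw [← hC2 a b]
      refine sup_le (sup_le ?_ ?_) ?_
      · refine (ih (a + 1) b (by omega)).trans (span_mono (Set.image_mono ?_))
        intro i hi
        exact ⟨le_trans (Nat.le_succ a) hi.1, hi.2⟩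
      · refine (ih a (b + 1) (by omega)).trans (span_mono (Set.image_mono ?_))
        intro i hi
        exact ⟨hi.1, le_trans (Nat.le_succ b) hi.2⟩
      · refine (hCs (⟨a, by omega⟩, ⟨b, by omega⟩)).trans (span_mono (Set.image_mono ?_))
        intro i hi
        have h1 : i.1 = (⟨a, by omega⟩, ⟨b, by omega⟩) := hi
        constructor
        · rw [h1]
        · rw [h1]
  have hspan' : ∀ (a b : ℕ),
      L a ⊓ R b = span K (v '' {i | a ≤ (i.1.1 : ℕ) ∧ b ≤ (i.1.2 : ℕ)}) := by
    intro a b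
    apply le_antisymm (hspan (2 * (M + 1)) a b (by omega))
    rw [span_le]
    rintro x ⟨i, hi, rfl⟩
    have h1 := hC1 _ _ (hv i)
    exact ⟨hL hi.1 h1.1, hR hi.2 h1.2⟩
  have htop : ⊤ ≤ span K (Set.range v) := by
    have h := hspan' 0 0
    rw [hL0, hR0, top_inf_eq] at h
    rw [h]
    exact span_mono (Set.image_subset_range _ _)
  have hcard : Fintype.card ι = finrank K V := by
    have h1 : Fintype.card ι = ∑ p : Fin (M + 1) × Fin (M + 1), finrank K (C p.1 p.2) := by
      simp [ι]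
    have h2 : (Fintype.card ι : ℤ) = ∑ a ∈ range (M + 1), ∑ b ∈ range (M + 1),
        (finrank K (C a b) : ℤ) := by
      rw [h1, Fintype.sum_prod_type]
      push_cast
      rw [Finset.sum_range]
      refine Finset.sum_congr rfl (fun a _ => ?_)
      rw [Finset.sum_range]
    have h3 : ∑ a ∈ range (M + 1), ∑ b ∈ range (M + 1), (finrank K (C a b) : ℤ)
        = finrank K V := by
      have h4 : ∀ a b : ℕ, (finrank K (C a b) : ℤ)
        = ((finrank K (L a ⊓ R b : Submodule K V) : ℤ)
            - finrank K (L (a + 1) ⊓ R b : Submodule K V))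
          - ((finrank K (L a ⊓ R (b + 1) : Submodule K V) : ℤ)
            - finrank K (L (a + 1) ⊓ R (b + 1) : Submodule K V)) := by
        intro a b
        rw [hC3 a b]; ring
      simp only [h4]
      have h5 : ∀ a : ℕ, ∑ b ∈ range (M + 1), (((finrank K (L a ⊓ R b : Submodule K V) : ℤ)
            - finrank K (L (a + 1) ⊓ R b : Submodule K V))
          - ((finrank K (L a ⊓ R (b + 1) : Submodule K V) : ℤ)
            - finrank K (L (a + 1) ⊓ R (b + 1) : Submodule K V)))
          = (finrank K (L a) : ℤ) - finrank K (L (a + 1)) := by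
        intro a
        rw [Finset.sum_range_sub' (fun b => (finrank K (L a ⊓ R b : Submodule K V) : ℤ)
            - finrank K (L (a + 1) ⊓ R b : Submodule K V))]
        rw [hR0, hRM, inf_top_eq, inf_top_eq, inf_bot_eq, inf_bot_eq, finrank_bot]
        simp
      rw [Finset.sum_congr rfl (fun a _ => h5 a),
        Finset.sum_range_sub' (fun a => (finrank K (L a) : ℤ)), hL0, hLM]
      simp
    exact_mod_cast h2.trans h3
  have hli : LinearIndependent K v :=
    linearIndependent_of_top_le_span_of_card_eq_finrank htop hcard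
  let b0 : Basis ι K V := Basis.mk hli htop
  have hb0 : ∀ i, b0 i = v i := fun i => Basis.mk_apply hli htop i
  let e : ι ≃ Fin (Fintype.card ι) := Fintype.equivFin ι
  let b : Basis (Fin (Fintype.card ι)) K V := b0.reindex e
  have hb : ∀ i, b i = v (e.symm i) := fun i => by rw [Basis.reindex_apply, hb0]
  let l : Fin (Fintype.card ι) → ℕ := fun i => (e.symm i).1.1
  let r : Fin (Fintype.card ι) → ℕ := fun i => (e.symm i).1.2
  have himg : ∀ (q : ℕ → ℕ → Prop), b '' {i | q (l i) (r i)}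
      = v '' {i | q (i.1.1 : ℕ) (i.1.2 : ℕ)} := by
    intro q
    ext x
    constructor
    · rintro ⟨i, hi, rfl⟩
      exact ⟨e.symm i, hi, (hb i).symm⟩
    · rintro ⟨i, hi, rfl⟩
      refine ⟨e i, ?_, ?_⟩
      · simpa [l, r] using hi
      · rw [hb]; simp
  have hLd : ∀ d, L d = span K (b '' {i | d ≤ l i}) := by
    intro d
    have h := hspan' d 0
    simp only [hR0, inf_top_eq, Nat.zero_le, and_true] at h
    rw [h, himg (fun x _ => d ≤ x)]
  have hRd : ∀ d, R d = span K (b '' {i | d ≤ r i}) := by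
    intro d
    have h := hspan' 0 d
    simp only [hL0, top_inf_eq, Nat.zero_le, true_and] at h
    rw [h, himg (fun _ y => d ≤ y)]
  have hlM : ∀ i, l i ≤ M := fun i => Nat.lt_succ_iff.mp (e.symm i).1.1.2
  have hrM : ∀ i, r i ≤ M := fun i => Nat.lt_succ_iff.mp (e.symm i).1.2.2
  refine ⟨Fintype.card ι, b, l, r, ?_, hLd, hRd, ?_, sum_level b M L l hlM hLd,
    sum_level b M R r hrM hRd⟩
  · intro i
    have h1 := hC1 _ _ (hv (e.symm i))
    rw [← hb i] at h1
    exact ⟨hlM i, hrM i, h1.1, h1.2⟩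
  · intro d f
    rw [hspan' d f, himg (fun x y => d ≤ x ∧ f ≤ y)]

end main

end Pool.Agent.Helper46.MN
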